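import Pool.Agent.W707.HM.Stm

/-! # HM-CVF: the profile of a rank-one convex function is convex -/

set_option autoImplicit false

namespace Pool.Agent.W440.HM2

open MeasureTheory Set Filter Topology
open Pool.Agent.W360.MQ (cab RankOneConvex)
open Pool.Agent.W707.HM

/-- the diagonal matrix -/
def dg (t τ : ℝ) : Matrix (Fin 2) (Fin 2) ℝ := !![t, 0; 0, τ]

theorem cab_dg (t τ : ℝ) : cab (dg t τ) = ((((t + τ) / 2 : ℝ) : ℂ), (((t - τ) / 2 : ℝ) : ℂ)) := by
  unfold cab dg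
  simp

theorem rank_dg (s : ℝ) (hs : s ≠ 0) : (dg 0 s).rank = 1 := by
  have h1 : dg 0 s = Matrix.diagonal ![0, s] := by
    ext i j
    fin_cases i <;> fin_cases j <;> simp [dg]
  rw [h1, Matrix.rank_diagonal, Fintype.card_eq_one_iff]
  refine ⟨⟨1, by simpa using hs⟩, ?_⟩
  rintro ⟨y, hy⟩
  fin_cases y
  · exact absurd rfl hy
  · rfl

theorem Wm_dg (p : ℝ) (f : ℝ → ℝ) {t : ℝ} (ht : t ∈ Icc (-1 : ℝ) 1) : Wm p f (dg 1 t) = f t := by
  unfold Wm wh
  rw [cab_dg]
  simp only [Complex.norm_real, Real.norm_eq_abs]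
  rw [abs_of_nonneg (by linarith [ht.1]), abs_of_nonneg (by linarith [ht.2])]
  have e1 : (1 + t) / 2 + (1 - t) / 2 = 1 := by ring
  have e2 : (1 + t) / 2 - (1 - t) / 2 = t := by ring
  rw [e1, e2, Real.one_rpow, one_mul, div_one]

theorem t_CVF : S_CVF := by
  intro p f hR
  refine ⟨convex_Icc _ _, ?_⟩
  intro t1 h1 t2 h2 a b ha hb hab
  simp only [smul_eq_mul]
  by_cases h : t1 = t2
  · subst h
    have h3 : a * t1 + b * t1 = t1 := by rw [← add_mul, hab, one_mul]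
    rw [h3, ← add_mul, hab, one_mul]
  have hb1 : b ≤ 1 := by linarith
  have h3 := hR (dg 1 t1) (dg 0 (t2 - t1)) (rank_dg _ (sub_ne_zero.2 (Ne.symm h))) b hb hb1
  have e1 : dg 1 t1 + dg 0 (t2 - t1) = dg 1 t2 := by
    ext i j
    fin_cases i <;> fin_cases j <;> simp [dg]
  have e2 : (1 - b) • dg 1 t1 + b • dg 1 t2 = dg 1 (a * t1 + b * t2) := by
    have : a = 1 - b := by linarith
    subst this
    ext i j
    fin_cases i <;> fin_cases j <;> simp [dg]
  have h4 : a * t1 + b * t2 ∈ Icc (-1 : ℝ) 1 := by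
    have := (convex_Icc (-1 : ℝ) 1) h1 h2 ha hb hab
    simpa only [smul_eq_mul] using this
  rw [e1, e2, Wm_dg p f h1, Wm_dg p f h2, Wm_dg p f h4] at h3
  have : a = 1 - b := by linarith
  rw [this] at h3 ⊢
  exact h3

end Pool.Agent.W440.HM2
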